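import Pool.Agent.helper32.PN.Spec

/-!
# Project PN, module NPR: recursions with the last step
-/

set_option autoImplicit false

namespace Pool.Agent.PN

open Module Polynomial Pool.Agent.helper27.PC

theorem NPR_remv (S : St) : remv 1 S = CNT_rem S := rfl

theorem NPR_rem (S : St) (y : Lab) : rem 1 S y = CNT_unm S y := rfl

theorem NPR_np (k : ℕ) (S₀ S : St) :
    np (k + 1) S₀ S = ∑ y ∈ remv 1 S, np k S₀ (rem 1 S y) := by
  have h1 := CNT_paths (k + 1) S₀ S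
  have h2 : ((CNT_U ^ (k + 1)) (Finsupp.single S₀ 1)) S =
      CNT_B (Finsupp.single S 1) (CNT_U ((CNT_U ^ k) (Finsupp.single S₀ 1))) := by
    rw [CNT_B_comm]
    unfold CNT_B
    rw [Finsupp.linearCombination_single, one_smul, pow_succ']
    rfl
  have h3 : ∀ y ∈ CNT_rem S, CNT_B ((CNT_U ^ k) (Finsupp.single S₀ 1))
      (Finsupp.single (CNT_unm S y) 1) = ((np k S₀ (rem 1 S y) : ℕ) : ℤ) := by
    intro y _
    unfold CNT_B
    rw [Finsupp.linearCombination_single, one_smul, CNT_paths]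
    rfl
  rw [h2, CNT_adj, CNT_D_single, CNT_B_comm, map_sum, Finset.sum_congr rfl h3] at h1
  have h4 : ((∑ y ∈ remv 1 S, np k S₀ (rem 1 S y) : ℕ) : ℤ) = ((np (k + 1) S₀ S : ℕ) : ℤ) := by
    rw [Nat.cast_sum]
    exact h1
  exact (Int.natCast_inj.1 h4).symm

theorem NPR_pos : ∀ (k : ℕ) (S₀ S : St), S ∈ ends k S₀ → np k S₀ S ≠ 0 := by
  intro k
  induction k with
  | zero =>
    intro S₀ S h
    unfold ends at h
    rw [Finset.mem_singleton] at h
    subst h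
    unfold np paths
    rw [if_pos rfl]
    simp
  | succ k ih =>
    intro S₀ S h
    unfold ends at h
    rw [Finset.mem_biUnion] at h
    obtain ⟨l, hl, h⟩ := h
    have h1 := ih _ _ h
    unfold np at h1 ⊢
    rw [Finset.card_ne_zero] at h1 ⊢
    obtain ⟨w, hw⟩ := h1
    refine ⟨l :: w, ?_⟩
    unfold paths
    rw [Finset.mem_biUnion]
    exact ⟨l, hl, Finset.mem_image_of_mem _ hw⟩

theorem NPR_iff (k : ℕ) (S₀ S : St) : S ∈ ends k S₀ ↔ np k S₀ S ≠ 0 :=
  ⟨NPR_pos k S₀ S, fun h => CNT_ends k S₀ S h⟩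

theorem NPR : NPR_stmt := by
  intro k S₀ S
  refine ⟨NPR_np k S₀ S, ?_, NPR_iff k S₀ S⟩
  rw [NPR_iff, NPR_np]
  constructor
  · intro h
    obtain ⟨y, hy, h1⟩ := Finset.exists_ne_zero_of_sum_ne_zero h
    exact ⟨y, hy, (NPR_iff k S₀ _).2 h1⟩
  · rintro ⟨y, hy, h1⟩ h
    exact (NPR_iff k S₀ _).1 h1 (Finset.sum_eq_zero_iff.1 h y hy)

end Pool.Agent.PN
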