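import Pool.Agent.helper32.PN.Final
import Pool.Agent.helper14.PN.REM
import Pool.Agent.helper17.PN.ASY
import Pool.Agent.helper20.PN.PTM
import Pool.Agent.helper23.PN.EE
import Pool.Agent.helper23.PN.EXTI
import Pool.Agent.helper24.PN.EXC1
import Pool.Agent.helper24.PN.HF
import Pool.Agent.helper29.PN.TAU
import Pool.Agent.helper30.PN.EXC2
import Pool.Agent.helper31.PN.PW
import Pool.Agent.helper32.PN.NPR
import Pool.Agent.helper34.PN.HB
import Pool.Agent.helper44.PN.CRIT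
import Pool.Agent.helper45.PN.EVN
import Pool.Agent.helper50.PN.PFU
import Pool.Agent.helper53.PN.PHI
import Pool.Agent.helper58.PN.EVA
import Pool.Agent.helper58.PN.EVB
import Pool.Agent.helper58.PN.SMC
import Pool.Agent.helper64.PN.K1
import Pool.Agent.helper67.PN.SUMC
import Pool.Agent.helper70.PN.LST
import Pool.Agent.helper71.PN.BADB
import Pool.Agent.helper77.PN.GRP
import Pool.Agent.helper79.PN.EXPN
import Pool.Agent.helper80.PN.BADV
import Pool.Agent.helper84.PN.A0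
import Pool.Agent.helper90.PN.DEC
import Pool.Agent.helper92.PN.HOL
import Pool.Agent.helper98.PN.CHR

set_option autoImplicit false

/-! # Project PN (MP_405bd9_al): assembly of the rows -/

namespace Pool.Agent.PN

theorem ALL_hol : HOL_stmt := HOL CHR
theorem ALL_pfu : PFU_stmt := PFU NPR CHR ALL_hol
theorem ALL_exti : EXTI_stmt := EXTI NPR CHR ALL_hol
theorem ALL_phi : PHI_stmt := PHI NPR ALL_pfu ALL_exti
theorem ALL_a0 : A0_stmt := A0 (K1 NPR) ALL_phi EE
theorem ALL_expn : EXPN_stmt := EXPN ALL_a0 REM SMC ALL_hol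
theorem ALL_lst : LST_stmt := LST ALL_a0 ALL_expn SMC ALL_hol
theorem ALL_badv : BADV_stmt := BADV BADB (K1 NPR)
theorem ALL_dec : DEC_stmt := DEC ALL_pfu ALL_exti ALL_phi
theorem ALL_asy : ASY_stmt := ASY ALL_dec ALL_badv ALL_lst (SUMC ALL_hol)
theorem ALL_crit : CRIT_stmt := CRIT ALL_asy PW
theorem ALL_hb : HB_stmt := HB NPR ALL_hol PTM
theorem ALL_hf : HF_stmt := HF NPR
theorem ALL_eva : EVA_stmt := EVA ALL_crit ALL_hb ALL_hf PTM
theorem ALL_evb : EVB_stmt := EVB ALL_crit ALL_hb ALL_hf PTM ALL_hol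
theorem ALL_exc1 : EXC1_stmt := EXC1 ALL_crit NPR ALL_hol PTM
theorem ALL_exc2 : EXC2_stmt := EXC2 ALL_crit NPR
theorem ALL_tau : TAU_stmt := TAU ALL_eva ALL_evb ALL_exc1 ALL_exc2 EVN

end Pool.Agent.PN
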