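import Pool.Agent.helper32.PN.Spec

/-!
# Project PN: the final theorem from `TAU_stmt` and `GRP_stmt`
-/

set_option autoImplicit false

namespace Pool.Agent.PN

open Module Polynomial Pool.Agent.helper27.PC

/-- splitting off the parts `1` -/
theorem FIN_split (β : List ℕ) (h1 : ∀ a ∈ β, 1 ≤ a) (hs : β.Pairwise (· ≤ ·)) :
    β = List.replicate (β.count 1) 1 ++ β.filter (fun a => a ≠ 1) := by
  induction β with
  | nil => rfl
  | cons a l ih =>
    have h1' : ∀ b ∈ l, 1 ≤ b := fun b hb => h1 b (List.mem_cons_of_mem _ hb)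
    have ih' := ih h1' hs.of_cons
    by_cases ha : a = 1
    · subst ha
      have e1 : (1 :: l).count 1 = l.count 1 + 1 := List.count_cons_self
      have e2 : (1 :: l).filter (fun a => a ≠ 1) = l.filter (fun a => a ≠ 1) := by
        rw [List.filter_cons_of_neg (by simp)]
      rw [e1, e2, List.replicate_succ, List.cons_append, ← ih']
    · have hall : ∀ b ∈ a :: l, b ≠ 1 := by
        intro b hb hb1
        subst hb1
        rcases List.mem_cons.1 hb with h | h
        · exact ha h.symm
        · have h2 := (List.pairwise_cons.1 hs).1 1 h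
          have h3 := h1 a List.mem_cons_self
          omega
      have e1 : (a :: l).count 1 = 0 := by
        rw [List.count_eq_zero]
        exact fun h => hall 1 h rfl
      have e2 : (a :: l).filter (fun a => a ≠ 1) = a :: l := by
        rw [List.filter_eq_self]
        intro b hb
        simpa using hall b hb
      rw [e1, e2]
      rfl

/-- the lists of positive integers of sum at most `m` are finitely many -/
theorem FIN_fin (m : ℕ) : Set.Finite {τ : List ℕ | (∀ a ∈ τ, 1 ≤ a) ∧ τ.sum ≤ m} := by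
  induction m with
  | zero =>
    refine (Set.finite_singleton ([] : List ℕ)).subset ?_
    rintro τ ⟨h1, h2⟩
    cases τ with
    | nil => rfl
    | cons a l =>
      have h3 := h1 a List.mem_cons_self
      rw [List.sum_cons] at h2
      omega
  | succ m ih =>
    have h : {τ : List ℕ | (∀ a ∈ τ, 1 ≤ a) ∧ τ.sum ≤ m + 1} ⊆
        {[]} ∪ Set.image2 (fun a l => a :: l) (Set.Iic (m + 1))
          {τ : List ℕ | (∀ a ∈ τ, 1 ≤ a) ∧ τ.sum ≤ m} := by
      rintro τ ⟨h1, h2⟩
      cases τ with
      | nil => exact Or.inl rfl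
      | cons a l =>
        have h3 := h1 a List.mem_cons_self
        rw [List.sum_cons] at h2
        refine Or.inr ⟨a, ?_, l, ⟨fun b hb => h1 b (List.mem_cons_of_mem _ hb), ?_⟩, rfl⟩
        · show a ≤ m + 1
          omega
        · omega
    exact ((Set.finite_singleton _).union ((Set.finite_Iic _).image2 _ ih)).subset h

/-- a uniform bound for `k` -/
theorem FIN_unif (hTAU : TAU_stmt) (m : ℕ) : ∃ K : ℕ, ∀ (t : Bool) (τ : List ℕ), τ ≠ [] →
    τ.Pairwise (· ≤ ·) → (∀ a ∈ τ, 2 ≤ a) → τ.sum ≤ m → ∀ k, K ≤ k →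
    ∃ x : ℕ, (nrm (vecT t (k + τ.sum) (List.replicate k 1 ++ τ))).coeff x < 0 := by
  classical
  have h : ∀ (t : Bool) (τ : List ℕ), ∃ K : ℕ, τ ≠ [] → τ.Pairwise (· ≤ ·) → (∀ a ∈ τ, 2 ≤ a) →
      ∀ k, K ≤ k → ∃ x : ℕ, (nrm (vecT t (k + τ.sum) (List.replicate k 1 ++ τ))).coeff x < 0 := by
    intro t τ
    by_cases hτ : τ ≠ [] ∧ τ.Pairwise (· ≤ ·) ∧ ∀ a ∈ τ, 2 ≤ a
    · obtain ⟨K, hK⟩ := hTAU t τ hτ.1 hτ.2.1 hτ.2.2
      exact ⟨K, fun _ _ _ => hK⟩
    · exact ⟨0, fun h1 h2 h3 => absurd ⟨h1, h2, h3⟩ hτ⟩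
  choose K hK using h
  refine ⟨(FIN_fin m).toFinset.sup fun τ => max (K true τ) (K false τ), ?_⟩
  intro t τ h1 h2 h3 h4 k hk
  refine hK t τ h1 h2 h3 k (le_trans ?_ hk)
  have hmem : τ ∈ (FIN_fin m).toFinset := by
    rw [Set.Finite.mem_toFinset]
    exact ⟨fun a ha => by have := h3 a ha; omega, h4⟩
  refine le_trans ?_ (Finset.le_sup (f := fun τ => max (K true τ) (K false τ)) hmem)
  cases t
  · exact le_max_right _ _
  · exact le_max_left _ _

/-- THE THEOREM -/
theorem FIN (hTAU : TAU_stmt) (hGRP : GRP_stmt) (m : ℕ) : ∃ n₀ : ℕ, ∀ (t : Bool) (n : ℕ), n₀ ≤ n →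
    ∀ (H : Type) [Ring H] [Algebra A H] (T : Basis (Wty t n) A H), GHecke (genTy t n) T →
    ∀ w : Wty t n, (∃ i : Fin n, ((w : W n) : Equiv.Perm (Fin n × Bool)) (i, true) ≠ (i, false)) →
    (Finset.univ.filter fun i : Fin n =>
      ((w : W n) : Equiv.Perm (Fin n × Bool)) (i, true) ≠ (i, false)).card ≤ m →
    NotPosClass T w := by
  obtain ⟨K, hK⟩ := FIN_unif hTAU m
  refine ⟨K + m + 3, ?_⟩
  intro t n hn H _ _ T hT w hw1 hwm
  obtain ⟨β, α, hty, hc⟩ := CLS n (w : W n)
  have hn3 : if t then 1 ≤ n else 3 ≤ n := by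
    cases t
    · show 3 ≤ n
      omega
    · show 1 ≤ n
      omega
  have hn2 : if t then 1 ≤ n else 2 ≤ n := by
    cases t
    · show 2 ≤ n
      omega
    · show 1 ≤ n
      omega
  obtain ⟨hev, w', hw', hmin, hx⟩ := key LEN2B SIGu t n hn2 H T hT w β α hty hc
  refine ⟨w', hw', hmin, fun hnat => ?_⟩
  have hcount := hGRP n (w : W n) β α hty hc
  have hsplit : (Finset.univ.filter fun i : Fin n =>
      ((w : W n) : Equiv.Perm (Fin n × Bool)) (i, true) = (i, false)).card +
      (Finset.univ.filter fun i : Fin n =>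
      ¬ ((w : W n) : Equiv.Perm (Fin n × Bool)) (i, true) = (i, false)).card = n := by
    rw [Finset.card_filter_add_card_filter_not, Finset.card_univ, Fintype.card_fin]
  have hpos : 1 ≤ (Finset.univ.filter fun i : Fin n =>
      ¬ ((w : W n) : Equiv.Perm (Fin n × Bool)) (i, true) = (i, false)).card := by
    obtain ⟨i, hi⟩ := hw1
    exact Finset.card_pos.2 ⟨i, Finset.mem_filter.2 ⟨Finset.mem_univ i, hi⟩⟩
  have hwm' : (Finset.univ.filter fun i : Fin n =>
      ¬ ((w : W n) : Equiv.Perm (Fin n × Bool)) (i, true) = (i, false)).card ≤ m := hwm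
  have hβ : β ≠ [] := by
    rintro rfl
    rw [List.count_nil] at hcount
    omega
  by_cases hα : ∃ a ∈ α, 2 ≤ a
  · obtain ⟨c, P, hc0, hcP, hneg⟩ :=
      val2 NFB2u NFD2u DZ AAu AADu t n hn3 β α hty hev hα _ hx
    have := nonneg_of_natPoly hnat hcP 1
    omega
  · have hα1 := eq_replicate_one α hty.2.2.1 hα
    set j := α.length with hj
    rw [hα1] at hty hc hx
    by_cases hj1 : 1 ≤ j
    · have hsum : n = β.sum + j := by
        have := hty.2.2.2
        simp at this
        omega
      obtain ⟨k, hk⟩ := neg1 LG DLu (YD LG LB) (LT DLu LB LG (NZ LB LG COL)) (CO COL LG LB) EVu (ONE DLu) t β j hty.1 hty.2.1 hβ hev hj1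
      obtain ⟨c, hc0, hcP⟩ := val1 NFB2u NFD2u DZ NUu t n hn2 β j hty hev hβ _ hx
      have := nonneg_of_natPoly hnat hcP k
      rw [hsum] at this
      omega
    · have hj0 : j = 0 := by omega
      rw [hj0] at hty hx
      obtain ⟨c, hc0, hcP⟩ := val1 NFB2u NFD2u DZ NUu t n hn2 β 0 hty hev hβ _ hx
      have hsum : β.sum = n := by
        have := hty.2.2.2
        simpa using this
      have hsp := FIN_split β hty.1 hty.2.1
      set k := β.count 1 with hk
      set τ := β.filter (fun a => a ≠ 1) with hτ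
      have hτs : τ.sum + k = n := by
        rw [hsp, List.sum_append, List.sum_replicate] at hsum
        simp at hsum
        omega
      have hτ2 : ∀ a ∈ τ, 2 ≤ a := by
        intro a ha
        rw [hτ, List.mem_filter] at ha
        have h1 := hty.1 a ha.1
        have h2 : a ≠ 1 := by simpa using ha.2
        omega
      have hτ0 : τ ≠ [] := by
        intro h0
        rw [h0, List.sum_nil] at hτs
        omega
      have hτp : τ.Pairwise (· ≤ ·) := hty.2.1.filter _
      obtain ⟨x, hx'⟩ := hK t τ hτ0 hτp hτ2 (by omega) k (by omega)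
      have hPU : PU t n β 0 = nrm (vecT t (k + τ.sum) (List.replicate k 1 ++ τ)) := by
        unfold PU
        rw [pow_zero, Module.End.one_apply, ← hsp]
        have : k + τ.sum = n := by omega
        rw [this]
      rw [← hPU] at hx'
      have := nonneg_of_natPoly hnat hcP x
      omega

end Pool.Agent.PN
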