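import Pool.Agent.helper27.PC3.Fin8

/-!
# Project PN (MP_405bd9_al): `-1` is isolated among the positive classes of `W(B_n)`, `W(D_n)`; specification

Paper proof: /team-store/C6_MP_405bd9_al_helper32.md. `t = true`: type `B`, `t = false`: type `D`.

Rules: every `XX_stmt` is proved in `Pool/Agent/<seat>/PN/XX.lean`: `import Pool.Agent.helper32.PN.Spec` (and files of other rows or of the PC project if useful), `set_option autoImplicit false`, `namespace Pool.Agent.PN`, the open line of this file,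
`theorem XX (h : YY_stmt) ... : XX_stmt`; hypotheses: other statements of this file (not circularly) and ANY proved theorem of the PC project (namespace `Pool.Agent.helper27.PC`). Auxiliary lemmas are prefixed `XX_`. No sorry, no double quotes, no `congr!`, no `convert`.
If a statement is false or awkward: tell helper32 at once.
Useful: `SD_pos`, `SD_Good`, `SD_good_hole`, `SD_sum_move` (helper93/PC/SD.lean), `LALG_*`, `LA`, `LG` (helper80/PC2/LALG.lean), `CNT_*` (helper46/PC/CNT.lean), `NU_*` (helper80/PC2/NU.lean).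
-/

set_option autoImplicit false

namespace Pool.Agent.PN

open Module Polynomial Pool.Agent.helper27.PC

noncomputable section

/-! ## Definitions -/

/-- `1` for the component `true` in type `B` -/
def tb (t b : Bool) : ℕ := if t && b then 1 else 0

/-- the places from which an `a`-ribbon can be removed -/
def remv (a : ℕ) (S : St) : Finset Lab := S.filter fun y => a ≤ y.2 ∧ dn a y ∉ S

/-- removing an `a`-ribbon -/
def rem (a : ℕ) (S : St) (y : Lab) : St := insert (dn a y) (S.erase y)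

/-- positive weights -/
def wP (t : Bool) (m k a : ℕ) (l : Lab) : ℤ[X] := X ^ (k + a + l.2 + tb t l.1 - m)

/-- the vector with positive weights as a function on states; the list is REVERSED: the head is the ribbon added last -/
def U (t : Bool) (m : ℕ) : List ℕ → St → ℤ[X]
  | [], S => if S = vac m then 1 else 0
  | a :: l, S => ∑ y ∈ remv a S, (-1) ^ cnt S (dn a y) a * wP t m l.sum a (dn a y) * U t m l (rem a S y)

/-- number of paths -/
def np (i : ℕ) (S₀ S : St) : ℕ := (paths i S₀ S).card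

/-- potential (twice the sum of the `content + tb` of the boxes, up to a constant) -/
def pt (t : Bool) (m : ℕ) (S : St) : ℤ :=
  ∑ l ∈ S, ((l.2 : ℤ) ^ 2 + l.2 - 2 * m * l.2 + 2 * tb t l.1 * l.2)

/-- exponent of `q` for the parts `1` -/
def e1 (t : Bool) (m k : ℕ) (S : St) : ℕ := (((k : ℤ) * (k - 1) + pt t m S - pt t m (vac m)) / 2).toNat

/-- the empty outside part: `K + 1` beads in the component `s`, `K` beads in the other one -/
def base (s : Bool) (K : ℕ) : St := insert (s, K) (vac K)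

/-- the outside part `T` (with `K` or `K + 1` beads) moved to the places `≥ m - K` -/
def ext (K m : ℕ) (T : St) : St := (Finset.univ ×ˢ Finset.range (m - K)) ∪ T.image (up (m - K))

/-- the state with a long column in the component `s` (with the hole `h`, so of height `m - h`) and the outside part `T` -/
def emb (s : Bool) (K m h : ℕ) (T : St) : St := (ext K m T).erase (s, h)

/-! ## States -/

/-- CHR (medium). Characterization of the reachable states. (→) induction on the number of steps (`SD_sum_move`, as `SD_good_move`). (←) induction on `i`: if `T` is not the starting state, then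
there is a bead with a free place below (else the positions are `0, .., K`), remove one box. -/
def CHR_stmt : Prop :=
  (∀ (m k : ℕ) (S : St), S ∈ ends k (vac m) ↔ SD_Good m k S) ∧
  ∀ (s : Bool) (K i : ℕ) (T : St), T ∈ ends i (base s K) ↔
    ((SD_pos s T).card = K + 1 ∧ (SD_pos (!s) T).card = K ∧
      ∑ p ∈ SD_pos true T, p + ∑ p ∈ SD_pos false T, p = 2 * ∑ p ∈ Finset.range K, p + K + i)

/-- NPR (short-medium). Recursions with the LAST step. `CNT_paths` (`U^n`), `CNT_adj`; or bijections. -/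
def NPR_stmt : Prop := ∀ (k : ℕ) (S₀ S : St),
  np (k + 1) S₀ S = ∑ y ∈ remv 1 S, np k S₀ (rem 1 S y) ∧
  (S ∈ ends (k + 1) S₀ ↔ ∃ y ∈ remv 1 S, rem 1 S y ∈ ends k S₀) ∧ (S ∈ ends k S₀ ↔ np k S₀ S ≠ 0)

/-- HOL (short-medium). Outside parts: holes, removing ribbons, adding ribbons. From CHR (`SD_minsum`, `SD_minsum2`). -/
def HOL_stmt : Prop := ∀ (s : Bool) (K i : ℕ) (T : St), T ∈ ends i (base s K) →
  (∀ u p, (u, p) ∉ T → K ≤ i + p) ∧ (∀ p, (s, p) ∉ T → K < i + p) ∧
  (∀ a, 1 ≤ a → ∀ y ∈ remv a T, a ≤ i ∧ rem a T y ∈ ends (i - a) (base s K) ∧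
    dn a y ∈ addable a (rem a T y) ∧ move a (rem a T y) (dn a y) = T ∧ cnt (rem a T y) (dn a y) a = cnt T (dn a y) a) ∧
  (∀ a, 1 ≤ a → ∀ l ∈ addable a T, move a T l ∈ ends (i + a) (base s K) ∧
    up a l ∈ remv a (move a T l) ∧ rem a (move a T l) (up a l) = T)

/-- PW (medium). For odd parts the signs of the components drop out. `vecT t m (l ++ [c]) = Rib (wT t m l.sum c) c (vecT t m l)`; `(Rib w a u) S = ∑ y ∈ remv a S, (-1)^cnt * w (dn a y) * u (rem a S y)` (`LA` with `Finsupp.single S 1`, or `LALG_kernel`);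
so `vecT t m l S = (-1)^(number of boxes in the component false) * U t m l.reverse S` if all parts are odd (a ribbon of odd size in the component false changes both signs); support in `ends` (`NU_vecT_ends`). -/
def PW_stmt : Prop := ∀ (t : Bool) (m : ℕ) (l : List ℕ), (∀ a ∈ l, Odd a) →
  nrm (vecT t m l) = ∑ S ∈ ends l.sum (vac m), U t m l.reverse S ^ 2

/-- K1 (short-medium). The parts `1`: induction on `k`, `NPR`; `SD_good_hole` for the subtraction in the exponent of `wP`. -/
def K1_stmt : Prop := ∀ (t : Bool) (m k : ℕ) (S : St),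
  (S ∉ ends k (vac m) → U t m (List.replicate k 1) S = 0) ∧
  (S ∈ ends k (vac m) → 2 * (e1 t m k S : ℤ) = k * (k - 1) + pt t m S - pt t m (vac m) ∧
    U t m (List.replicate k 1) S = (np k (vac m) S : ℤ[X]) * X ^ e1 t m k S)

/-- PFU (medium). The state without its first column in the component `s` (`h` the lowest hole), and the upper bound for the number of paths. Induction on `k` with NPR: the last step is either the last box of the column
(`y = (s, h + 1)`, the hole becomes `h + 1`, `insert (s, h) S` does not change) or outside (the hole is the same, a box of `insert (s, h) S`); Pascal. -/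
def PFU_stmt : Prop := ∀ (s : Bool) (m k h : ℕ) (S : St), S ∈ ends k (vac m) → (s, h) ∉ S →
  (∀ p < h, (s, p) ∈ S) → h ≤ m ∧ m ≤ k + h ∧ insert (s, h) S ∈ ends (k + h - m) (base s m) ∧
  np k (vac m) S ≤ k.choose (k + h - m) * np (k + h - m) (base s m) (insert (s, h) S)

/-- EXTI (medium). The outside part does not depend on `m`. (`i ≤ K`: no bead of `vac (m - K)` can move in `i` steps.) -/
def EXTI_stmt : Prop := ∀ (s : Bool) (K m i : ℕ), i ≤ K → K ≤ m →
  (∀ T ∈ ends i (base s K), ext K m T ∈ ends i (base s m) ∧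
    np i (base s m) (ext K m T) = np i (base s K) T) ∧
  (∀ T' ∈ ends i (base s m), ∃ T ∈ ends i (base s K), ext K m T = T') ∧
  ∀ T T' : St, ext K m T = ext K m T' → T = T'

/-- PHI (medium). Number of paths to the states with a long column: upper bound PFU, EXTI; lower bound: induction (on `m - h` and `i`) with NPR and Pascal, start `m - h = K + 1`: `np ≥ np i (base s K) T`. -/
def PHI_stmt : Prop := ∀ (s : Bool) (K m h i : ℕ) (T : St), i ≤ K → h + K < m → T ∈ ends i (base s K) →
  emb s K m h T ∈ ends (m - h + i) (vac m) ∧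
  (m - h + i - (K + 1)).choose i * np i (base s K) T ≤ np (m - h + i) (vac m) (emb s K m h T) ∧
  np (m - h + i) (vac m) (emb s K m h T) ≤ (m - h + i).choose i * np i (base s K) T

/-- EE (short-medium). The potential of the states with a long column (`H = m - h`). -/
def EE_stmt : Prop := ∀ (t s : Bool) (K m h i : ℕ) (T : St), h + K < m → T ∈ ends i (base s K) →
  pt t m (emb s K m h T) - pt t m (vac m) =
    - ((m : ℤ) - h) * (m - h - 1) + 2 * tb t s * (m - h) + (pt t K T - pt t K (base s K))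

/-- REM (medium). Removing a ribbon from a state with a long column: from the column, or from the outside part. -/
def REM_stmt : Prop := ∀ (s : Bool) (K m h a : ℕ) (T : St) (w : Lab → ℤ[X]) (u : St → ℤ[X]), 1 ≤ a →
  h + a + K < m →
  ∑ y ∈ remv a (emb s K m h T), (-1) ^ cnt (emb s K m h T) (dn a y) a * w (dn a y) * u (rem a (emb s K m h T) y) =
    (-1) ^ (a - 1) * w (s, h) * u (emb s K m (h + a) T) +
    ∑ y ∈ remv a T, (-1) ^ cnt T (dn a y) a * w (up (m - K) (dn a y)) * u (emb s K m h (rem a T y))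

/-- DEC (medium). Decomposition of the sum over the states: states with all places `≤ J0` filled, states with a long column (hole `j ≤ J0`). PFU, EXTI, PHI (first part), CHR; not both components have a hole `≤ J0`:
`n ≥` sum of the heights of the columns. -/
def DEC_stmt : Prop := ∀ (J0 K n : ℕ), J0 ≤ K → 2 * K + 2 ≤ n → ∀ Φ : St → ℤ,
  ∑ S ∈ ends n (vac n), Φ S =
    ∑ S ∈ (ends n (vac n)).filter (fun S => ∀ (s : Bool) (p : ℕ), p ≤ J0 → (s, p) ∈ S), Φ S +
    ∑ s : Bool, ∑ j ∈ Finset.range (J0 + 1), ∑ T ∈ ends j (base s K), Φ (emb s K n j T)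

/-- BADB (medium). Bound for the exponent. With `h` the lowest hole in the component `s`, `H = m - h`, `i = k - H`: (1) `H * i ≤ e1` (induction on `k`: a box of the column has exponent `i + tb`, a box outside has content `≥ -i`, exponent `≥ k - i = H`);
(2) `k * (k + 1 - 2 H) ≤ 2 e1`, `H` the larger height (content `≥ 1 - H`). Then: `H ≥ J1`: (1), else (2). -/
def BADB_stmt : Prop := ∀ (t : Bool) (m k J1 : ℕ) (S : St), S ∈ ends k (vac m) → 4 * J1 ≤ k →
  (∀ (s : Bool) (p : ℕ), p + k < m + J1 → (s, p) ∈ S) → J1 * (k - J1) ≤ e1 t m k S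

/-- BADV (short-medium). From BADB and K1: induction on `ρ` (removing a ribbon does not change the filled places `p + k < m + J1`). -/
def BADV_stmt : Prop := ∀ (t : Bool) (m k J1 : ℕ) (ρ : List ℕ) (S : St), (∀ a ∈ ρ, 1 ≤ a) →
  S ∈ ends (ρ.sum + k) (vac m) → 4 * J1 ≤ k → (∀ (s : Bool) (p : ℕ), p + k < m + J1 → (s, p) ∈ S) →
  ∀ x < J1 * (k - J1), (U t m (ρ ++ List.replicate k 1) S).coeff x = 0

/-! ## Families of polynomials -/

/-- sums of boundedly many monomials `c X^x` of energy `e`: `x ≥ e k - C`, `|c| ≤ C k^(e - s)` -/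
def Sm (s : ℕ) (p : ℕ → ℤ[X]) : Prop :=
  ∃ C : ℕ, ∀ k : ℕ, C ≤ k → ∃ L : List (ℤ × ℕ × ℕ), L.length ≤ C ∧
    p k = (L.map fun a => monomial a.2.1 a.1).sum ∧
    ∀ a ∈ L, s ≤ a.2.2 ∧ |a.1| ≤ C * (k : ℤ) ^ (a.2.2 - s) ∧ a.2.2 * k ≤ a.2.1 + C

/-- SMC (medium). Rules for `Sm`. -/
def SMC_stmt : Prop :=
  (∀ s : ℕ, Sm s fun _ => 0) ∧
  (∀ (s : ℕ) (p q : ℕ → ℤ[X]), Sm s p → Sm s q → Sm s fun k => p k + q k) ∧
  (∀ (s s' : ℕ) (p q : ℕ → ℤ[X]), Sm s p → Sm s' q → Sm (s + s') fun k => p k * q k) ∧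
  (∀ (s s' : ℕ) (p : ℕ → ℤ[X]), s' ≤ s → Sm s p → Sm s' p) ∧
  (∀ (s : ℕ) (p q : ℕ → ℤ[X]) (k₀ : ℕ), (∀ k, k₀ ≤ k → p k = q k) → Sm s p → Sm s q) ∧
  (∀ (s e B : ℕ) (c : ℕ → ℤ) (x : ℕ → ℕ), s ≤ e → (∀ k, B ≤ k → |c k| ≤ B * (k : ℤ) ^ (e - s) ∧ e * k ≤ x k + B) →
    Sm s fun k => C (c k) * X ^ x k) ∧
  ∀ (s E B : ℕ) (p : ℕ → ℤ[X]), s ≤ E → Sm s p → ∃ B' : ℕ, ∀ k, B' ≤ k → ∀ x, x ≤ E * k + B →
    |(p k).coeff x| ≤ B' * (k : ℤ) ^ (E - s)

/-! ## Expansions at the states with a long column -/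

/-- the values at the states with a long column: `ρ` the ribbons added up to now (reversed), `q` the sum of the sizes of the ribbons still to be added, `i` the number of boxes of the outside part `T` -/
def Af (t s : Bool) (K : ℕ) (ρ : List ℕ) (q i : ℕ) (T : St) (k : ℕ) : ℤ[X] :=
  U t (k + ρ.sum + q) (ρ ++ List.replicate k 1) (emb s K (k + ρ.sum + q) (q + i) T)

/-- all ribbons are added to the column -/
def V0f (t s : Bool) (K : ℕ) (ρ : List ℕ) (q i : ℕ) (T : St) (k : ℕ) : ℤ[X] :=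
  X ^ (ρ.length * (i + tb t s)) * Af t s K [] (ρ.sum + q) i T k

/-- one ribbon (the entry `j` of `ρ`) is added outside -/
def V1f (t s : Bool) (K : ℕ) (ρ : List ℕ) (q i : ℕ) (T : St) (k : ℕ) : ℤ[X] :=
  ∑ j ∈ Finset.range ρ.length, ∑ y ∈ remv (ρ.getD j 0) T,
    (-1) ^ cnt T (dn (ρ.getD j 0) y) (ρ.getD j 0) *
      X ^ (j * (i + tb t s) + (k + (ρ.drop (j + 1)).sum + y.2 + tb t y.1 - K)) *
      V0f t s K (ρ.drop (j + 1)) (q + (ρ.take (j + 1)).sum) (i - ρ.getD j 0) (rem (ρ.getD j 0) T y) k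

/-- A0 (short). From K1, PHI, EE (`m = k + q`, `h = q + i`, `m - h + i = k`). -/
def A0_stmt : Prop := ∀ (t s : Bool) (K q i : ℕ) (T : St), i ≤ K → T ∈ ends i (base s K) →
  ∀ k, i + K < k → ∃ φ e : ℕ, Af t s K [] q i T k = (φ : ℤ[X]) * X ^ e ∧
    2 * (e : ℤ) = 2 * k * i - i * (i + 1) + 2 * tb t s * (k - i) + (pt t K T - pt t K (base s K)) ∧
    (k - (K + 1)).choose i * np i (base s K) T ≤ φ ∧ φ ≤ k.choose i * np i (base s K) T

/-- EXPN (medium). Induction on `ρ` (for all `q`, `i`, `T`): REM gives, for large `k`, `Af (c :: ρ) q i T = X^(i + tb) Af ρ (q + c) i T + ∑_y (-1)^cnt X^(k + ρ.sum + y.2 + tb - K) Af ρ (q + c) (i - c) (rem c T y)`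
(`(-1)^(c - 1) = 1`), and the same recursion with `V0f`, `V1f` instead of `Af`: `V0f (c :: ρ) q i T = X^(i + tb) V0f ρ (q + c) i T`, `V1f (c :: ρ) q i T = X^(i + tb) V1f ρ (q + c) i T + ∑_y (..) V0f ρ (q + c) (i - c) (rem c T y)`.
`V0f` is in `Sm (tb)`: A0, energy `i + tb`, `φ ≤ k^i np`. `X^(k + ..)` is in `Sm 1`. -/
def EXPN_stmt : Prop := ∀ (t s : Bool) (K : ℕ) (ρ : List ℕ) (q i : ℕ) (T : St), (∀ a ∈ ρ, Odd a) → i ≤ K →
  T ∈ ends i (base s K) →
  Sm (tb t s) (V0f t s K ρ q i T) ∧ Sm (tb t s + 1) (V1f t s K ρ q i T) ∧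
  Sm (tb t s + 2) fun k => Af t s K ρ q i T k - V0f t s K ρ q i T k - V1f t s K ρ q i T k

/-! ## The leading coefficient -/

/-- the square of `V0f` (`tb = 0`) has the exponent `2 k i + o0`, `r` the number of ribbons -/
def o0 (t s : Bool) (K r i : ℕ) (T : St) : ℤ :=
  - (i : ℤ) * (i + 1) + (pt t K T - pt t K (base s K)) + 2 * r * i

/-- the product of `V0f` for `T` and of the term of `V1f` for `T'` (`tb = 0`) has the exponent `k (i + i' + 1) + off / 2` -/
def off (t s : Bool) (K : ℕ) (ρ : List ℕ) (j i i' : ℕ) (T T' : St) (x : ℤ) : ℤ :=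
  o0 t s K ρ.length i T + (- (i' : ℤ) * (i' + 1) + (pt t K T' - pt t K (base s K)) +
    2 * ((ρ.length : ℤ) - 1 - j) * i' + 2 * ((ρ.drop (j + 1)).sum + x - K) + 2 * j * i)

/-- the contribution of the outside part `T` -/
def ell (t s : Bool) (K : ℕ) (ρ : List ℕ) (J : ℕ) (z : ℤ) (i : ℕ) (T : St) : ℚ :=
  if (t && s) = true then 0 else
    2 * ∑ j ∈ Finset.range ρ.length, ∑ y ∈ remv (ρ.getD j 0) T,
      if 2 * i + 1 = 2 * J + ρ.getD j 0 ∧
          off t s K ρ j i (i - ρ.getD j 0) T (rem (ρ.getD j 0) T y) (y.2 + tb t y.1) = 2 * z then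
        (-1 : ℚ) ^ cnt T (dn (ρ.getD j 0) y) (ρ.getD j 0) *
          (np i (base s K) T * np (i - ρ.getD j 0) (base s K) (rem (ρ.getD j 0) T y)) /
          (i.factorial * (i - ρ.getD j 0).factorial)
      else 0

/-- the number of boxes of the smaller outside part -/
def ip (J c : ℕ) : ℕ := J - (c + 1) / 2

/-- the leading coefficient -/
def Lq (t : Bool) (K : ℕ) (ρ : List ℕ) (J : ℕ) (z : ℤ) : ℚ :=
  2 * ∑ s : Bool, if (t && s) = true then 0 else
    ∑ j ∈ Finset.range ρ.length, if ρ.getD j 0 < 2 * J then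
      ∑ T ∈ ends (ip J (ρ.getD j 0)) (base s K), ∑ l ∈ addable (ρ.getD j 0) T,
        if off t s K ρ j (ip J (ρ.getD j 0) + ρ.getD j 0) (ip J (ρ.getD j 0)) (move (ρ.getD j 0) T l) T
            (l.2 + ρ.getD j 0 + tb t l.1) = 2 * z then
          (-1 : ℚ) ^ cnt T l (ρ.getD j 0) *
            (np (ip J (ρ.getD j 0) + ρ.getD j 0) (base s K) (move (ρ.getD j 0) T l) *
              np (ip J (ρ.getD j 0)) (base s K) T) /
            ((ip J (ρ.getD j 0) + ρ.getD j 0).factorial * (ip J (ρ.getD j 0)).factorial)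
        else 0
      else 0

/-- `z` is not an exponent (minus `2 k J`) of the square of `V0f` for the outside parts with `J` boxes -/
def Hole (t : Bool) (K r J : ℕ) (z : ℤ) : Prop :=
  ∀ s : Bool, ¬ (t && s) = true → ∀ T ∈ ends J (base s K), o0 t s K r J T ≠ z

/-- LST (medium-long). The limit for one outside part. `Af = V0f + V1f + R`. `tb = 1`: `Af^2` is in `Sm 2` (EXPN, SMC), so the quotient tends to `0`. `tb = 0`: `Af^2 = V0f^2 + 2 V0f V1f + (Sm 2)`.
A0: `V0f = φ X^(..)`, `φ / k^i → np / i!` (squeeze; `(k - (K+1)).choose i / k^i → 1 / i!`). `V0f^2`: exponent `2 k i + o0 = 2 J k + z` is impossible for large `k` (`i ≠ J`, or `i = J` and `o0 ≠ z`). `V0f V1f`: a sum over `j`, `y` of monomials with exponent `k (i + i' + 1) + off / 2`,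
`i' = i - c` (HOL: `c ≤ i`, `rem c T y ∈ ends (i - c)`): for large `k` it is `2 J k + z` iff `2 i + 1 = 2 J + c` and `off = 2 z`; the coefficient is `± φ φ'`, `φ φ' / k^(i + i') → np np' / (i! i'!)`. -/
def LST_stmt : Prop := ∀ (t s : Bool) (K : ℕ) (ρ : List ℕ) (J : ℕ) (z : ℤ) (i : ℕ) (T : St),
  (∀ a ∈ ρ, Odd a) → 1 ≤ J → i ≤ K → T ∈ ends i (base s K) →
  (¬ (t && s) = true → i = J → o0 t s K ρ.length J T ≠ z) →
  Filter.Tendsto (fun k : ℕ => (((Af t s K ρ 0 i T k ^ 2).coeff (2 * J * k + z).toNat : ℤ) : ℝ) /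
    (k : ℝ) ^ (2 * J - 1)) Filter.atTop (nhds ((ell t s K ρ J z i T : ℚ) : ℝ))

/-- SUMC (medium). Reindexing `(T, y) ↔ (T', l)`, `T' = rem c T y`, `l = dn c y` (HOL), `i = ip J c + c`. -/
def SUMC_stmt : Prop := ∀ (t : Bool) (K : ℕ) (ρ : List ℕ) (J : ℕ) (z : ℤ), (∀ a ∈ ρ, Odd a) → 1 ≤ J →
  ∑ s : Bool, ∑ i ∈ Finset.range (J + ρ.sum + 2), ∑ T ∈ ends i (base s K), ell t s K ρ J z i T = Lq t K ρ J z

/-- ASY (medium). DEC with `J0 = J + 1 + ρ.sum`, `n = k + ρ.sum`; BADV with `J1 = J + 1` (the squares of the values at the bad states have no terms below `2 (J + 1) (k - J - 1) > 2 J k + z`); LST (`emb s K n j T`: `Af t s K ρ 0 j T k`), SUMC. -/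
def ASY_stmt : Prop := ∀ (t : Bool) (K : ℕ) (ρ : List ℕ) (J : ℕ) (z : ℤ), (∀ a ∈ ρ, Odd a) → 1 ≤ J →
  J + ρ.sum + 2 ≤ K → Hole t K ρ.length J z →
  Filter.Tendsto (fun k : ℕ => (((∑ S ∈ ends (k + ρ.sum) (vac (k + ρ.sum)),
      U t (k + ρ.sum) (ρ ++ List.replicate k 1) S ^ 2).coeff (2 * J * k + z).toNat : ℤ) : ℝ) /
    (k : ℝ) ^ (2 * J - 1)) Filter.atTop (nhds ((Lq t K ρ J z : ℚ) : ℝ))

/-- the class of negative cycle type `(1^k, τ)` has a negative coefficient for all large `k` -/
def Neg (t : Bool) (τ : List ℕ) : Prop :=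
  ∃ k₀ : ℕ, ∀ k, k₀ ≤ k → ∃ x : ℕ, (nrm (vecT t (k + τ.sum) (List.replicate k 1 ++ τ))).coeff x < 0

/-- CRIT (short). THE CRITERION: ASY and PW. -/
def CRIT_stmt : Prop := ∀ (t : Bool) (K : ℕ) (ρ : List ℕ) (J : ℕ) (z : ℤ), (∀ a ∈ ρ, Odd a) → 1 ≤ J →
  J + ρ.sum + 2 ≤ K → Hole t K ρ.length J z → Lq t K ρ J z < 0 → Neg t ρ.reverse

/-! ## Evaluation -/

/-- PTM (short): the potential after adding a ribbon. -/
def PTM_stmt : Prop := ∀ (t : Bool) (K a : ℕ) (T : St) (l : Lab), 1 ≤ a → l ∈ addable a T →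
  pt t K (move a T l) = pt t K T + a * (2 * l.2 + a + 1 - 2 * K + 2 * tb t l.1)

/-- HB (short-medium). Bounds for the potential: induction on `i` (NPR, HOL, PTM): the content of the box number `x + 1` (`y ∈ remv 1 T`, `T` with `x + 1` boxes) is at most `x + 1` in the component `s`, at most `x` in the other one, at least `1 - x` in the component `s`, at least `-x` in the other one
(HOL for the hole below; the upper bound: the bead at `y` has `y.2` minus .. free places below; count the free places). -/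
def HB_stmt : Prop := ∀ (t s : Bool) (K i : ℕ) (T : St), ¬ (t && s) = true → T ∈ ends i (base s K) →
  pt t K T - pt t K (base s K) ≤ i * (i + 1) ∧ - (i : ℤ) * (i - 1) ≤ pt t K T - pt t K (base s K) ∧
  (t = true → 2 * (i : ℤ) - i * (i - 1) ≤ pt t K T - pt t K (base s K))

/-- the place of the bead for the hook with leg `b` in the component `u` -/
def hk (s u : Bool) (K b : ℕ) : Lab := (u, if u = s then K - b else K - 1 - b)

/-- HF (medium). Hooks: adding an `a`-ribbon to the empty outside part. Number of paths: induction, NPR: the removable boxes of the hook are the end of the arm and the end of the leg. -/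
def HF_stmt : Prop := ∀ (s : Bool) (K a : ℕ), 1 ≤ a → a < K →
  (∀ l : Lab, l ∈ addable a (base s K) ↔ ∃ (u : Bool) (b : ℕ), b < a ∧ l = hk s u K b) ∧
  ∀ (u : Bool) (b : ℕ), b < a → cnt (base s K) (hk s u K b) a = b ∧
    move a (base s K) (hk s u K b) ∈ ends a (base s K) ∧
    np a (base s K) (move a (base s K) (hk s u K b)) = (a - 1).choose b

/-- EVA (medium). `c = 2 g + 1` the smallest part, `J = g + 1`, `z = 2 r c - (c + 1)`, `K` large: CRIT. Hole: HB. `Lq`: only the entries `c` of `ρ` (`c_j < 2 J` iff `c_j = c`), `ip J c = 0`, `ends 0 = {base}`, HF, PTM: `off = 2 z` iff (`l = hk s u K b`): `u = s`: `b = 1`; `u ≠ s`: type `B`: `b = 1`; type `D`: `b = 0`.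
The entries after `c` in `ρ` (smaller parts) are all `c`: `(ρ.drop (j + 1)).sum = (r - 1 - j) c`. -/
def EVA_stmt : Prop := ∀ (t : Bool) (τ : List ℕ) (g : ℕ), 1 ≤ g → τ.Pairwise (· ≤ ·) →
  (∀ a ∈ τ, Odd a ∧ 2 * g + 1 ≤ a) → 2 * g + 1 ∈ τ → 1 < (τ.length - 1) * g → Neg t τ

/-- EVB (medium). The lower end: `J = (c + 1) / 2`, `b = c - 2` (type `B`), `c - 1` (type `D`), `z = (r + 1) c + σ' - (c + 1) b`, `σ' = 0` (`r = 1`), `3` (`r = 2`). Hole: HB. The entry `c`: `ip J c = 0`, HF: `off = 2 z` iff `u = s`: this `b`; `u ≠ s`: type `B`: this `b`, type `D`: `b - 1`.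
The entry `3` (`r = 2`; `i' = (c - 3) / 2`): no terms, as `off ≥ - c^2 + 4 c + 1 > 2 z` (type `B`), `off ≥ - c^2 + 2 c + 1 > 2 z` (type `D`) (HB for both outside parts, HOL for `l.2`: the place `l.2 + 3` .. see the page). -/
def EVB_stmt : Prop := ∀ (t : Bool) (c : ℕ), Odd c → (5 ≤ c → Neg t [c]) ∧ (7 ≤ c → Neg t [3, c])

/-- EXC1 (medium, finite computation). CRIT with (type, τ, J, z): B [3,3] 4 6; B [3,5] 4 6; D [3,3] 6 -10. ALL terms of `Lq` with `off = 2 z` have odd `cnt` (leg), so only: (i) Hole; (ii) for all `T ∈ ends (ip J c) (base s K)`, `l ∈ addable c T` with `off = 2 z`, `cnt T l c` is odd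
(at most 132 pairs for every `s`, `j`); (iii) one such pair (then `np ≠ 0` by NPR, HOL). B: `T` = one box in each component (`ip = 2`, `c = 3`), ribbon to `(2,2)`; D: `T` = `(1), (2,1)` (`ip = 4`). For the computation write the states as pairs of bit masks (natural numbers), list the levels `ends i (base s K)` with the
last step recursion (duplicates do no harm) and use `decide +kernel` on natural numbers (no `native_decide`); `K = J + τ.sum + 2`. -/
def EXC1_stmt : Prop := Neg true [3, 3] ∧ Neg true [3, 5] ∧ Neg false [3, 3]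

/-- EXC2 (medium, finite computation). CRIT with (type, τ, J, z, L): B [3] 4 -2 (-1/4); D [3] 2 -2 (-2/3); D [3,5] 4 10 (-1/60). The terms of `Lq` (component `s` | other component): B [3] (`s = false`, `ip = 2`): T' = (|2): T = (2,1|2): -20; T' = (|1,1): T = (|3,2): -5, (3|1,1): +10;
T' = (2|): (2|2,1): -20; T' = (1,1|): (1,1|3): +10, (3,2|): -5. D [3] (each `s`, `ip = 0`): (|2,1): -2, (1,1,1|): +1 (HF). D [3,5] (each `s`, entry 5, `ip = 1`): T' = (1|): (4,2|): -9, (1|5): +6. The numbers are `± np T * np T'`; compute `np` with the recursion NPR. As in EXC1: bit masks, `decide +kernel`. -/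
def EXC2_stmt : Prop := Neg true [3] ∧ Neg false [3] ∧ Neg false [3, 5]

/-- EVN (short-medium). An even part: `NegType t (1^k ++ τ)` by `Block1` with `L = []`, `B = 1^k ++` (the odd parts before the first even part `c`), `k` large; the norm at `q = -1` is larger than at `q = 1`: see `S3N` in `Pool/Agent/helper27/PC3/Fin8.lean` (`NZH_neg`, `EVu`, `exists_neg_of_lt`; `PU t n l 0 = nrm (vecT t n l)`). -/
def EVN_stmt : Prop := ∀ (t : Bool) (τ : List ℕ), τ.Pairwise (· ≤ ·) → (∀ a ∈ τ, 2 ≤ a) →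
  (∃ a ∈ τ, Even a) → Neg t τ

/-- GRP (medium). The number of negative fixed coordinates of an element of cycle type `(β; α)`: a class function; for `std2 n β α` it is the number of parts `1` of `β` (`LEN_std`, `LEN_Blk`, `CLS`). -/
def GRP_stmt : Prop := ∀ (n : ℕ) (w : W n) (β α : List ℕ), Typ n β α → IsConj w (std2 n β α) →
  (Finset.univ.filter fun i : Fin n => (w : Equiv.Perm (Fin n × Bool)) (i, true) = (i, false)).card = β.count 1

/-- TAU (short): EVA, EVB, EXC1, EXC2, EVN. -/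
def TAU_stmt : Prop := ∀ (t : Bool) (τ : List ℕ), τ ≠ [] → τ.Pairwise (· ≤ ·) → (∀ a ∈ τ, 2 ≤ a) → Neg t τ

end

end Pool.Agent.PN
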